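import Pool.Agent.LibKl96.Rel

/-!
# Both signs with two prime factors: from the scales to real numbers
-/

set_option autoImplicit false

namespace Kl96

open Finset Filter Topology Kloo

/-- The case distinction at one scale. -/
theorem scale (a : ℤ) (ha : a ≠ 0) (n : ℕ) (hn : 16 * a.natAbs + 2 ≤ n)
    (𝒬 : Finset (ℕ × ℕ)) (h𝒬 : IsPairs n 𝒬) (N : ℝ) (hN : N ≤ #𝒬)
    (hπ : N / 4 + (4 * a.natAbs + 3) ≤ (Nat.primeCounting (128 * n ^ 64) : ℝ)) :
    ∃ b : ℤ, (b = a ∨ b = 4 * a ∨ b = 16 * a) ∧ N / 8 ≤ #(SP b (256 * n ^ 64)) ∧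
      N / 8 ≤ #(SN b (256 * n ^ 64)) := by
  have h4 : (4 * a).natAbs = 4 * a.natAbs := by rw [Int.natAbs_mul]; rfl
  have h4a : (4 * a : ℤ) ≠ 0 := by omega
  obtain ⟨h1, h2⟩ := card_le a ha n (by omega) 𝒬 h𝒬
  obtain ⟨-, h3⟩ := card_le (4 * a) h4a n (by omega) 𝒬 h𝒬
  have h5 := card_primes_le (4 * a) h4a (128 * n ^ 64)
  have e1 : 2 * (128 * n ^ 64) = 256 * n ^ 64 := by ring
  rw [e1, h4] at h5
  have h1' : (#𝒬 : ℝ) ≤ 4 * (#(SP a (256 * n ^ 64)) + #(SP (4 * a) (256 * n ^ 64))) := by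
    exact_mod_cast h1
  have h2' : (#𝒬 : ℝ) ≤ 4 * (#(SN a (256 * n ^ 64)) + #(SP (4 * a) (256 * n ^ 64))) := by
    exact_mod_cast h2
  have h3' : (#𝒬 : ℝ) ≤ 4 * (#(SN (4 * a) (256 * n ^ 64)) +
      #(SP (4 * (4 * a)) (256 * n ^ 64))) := by
    exact_mod_cast h3
  have h5' : (Nat.primeCounting (128 * n ^ 64) : ℝ) ≤ #(SN (4 * (4 * a)) (256 * n ^ 64)) +
      #(SN (4 * a) (256 * n ^ 64)) + (4 * a.natAbs + 3) := by
    exact_mod_cast h5
  have e2 : 16 * a = 4 * (4 * a) := by ring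
  by_cases c1 : N / 8 ≤ (#(SP a (256 * n ^ 64)) : ℝ) ∧ N / 8 ≤ (#(SN a (256 * n ^ 64)) : ℝ)
  · exact ⟨a, Or.inl rfl, c1⟩
  have c2 : N / 8 ≤ (#(SP (4 * a) (256 * n ^ 64)) : ℝ) := by
    rw [not_and_or, not_le, not_le] at c1
    rcases c1 with c1 | c1 <;> linarith
  by_cases c3 : N / 8 ≤ (#(SN (4 * a) (256 * n ^ 64)) : ℝ)
  · exact ⟨4 * a, Or.inr (Or.inl rfl), c2, c3⟩
  rw [not_le] at c3
  refine ⟨16 * a, Or.inr (Or.inr rfl), ?_, ?_⟩
  · rw [e2]; linarith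
  · rw [e2]; linarith

/-- From counts along `C n^64` to counts up to real `X`. -/
theorem real_transfer_or {ι : Type} (J : ι → Prop) (P P' : ι → ℕ → Prop) (C e : ℕ) (hC : 0 < C)
    (cc : ℝ) (hcc : 0 < cc)
    (h : ∀ᶠ n : ℕ in atTop, ∃ i, J i ∧ ∃ S S' : Finset ℕ, (∀ c ∈ S, c ≤ C * n ^ 64 ∧ P i c) ∧
      (∀ c ∈ S', c ≤ C * n ^ 64 ∧ P' i c) ∧ cc * n ^ 64 / Real.log n ^ e ≤ #S ∧
      cc * n ^ 64 / Real.log n ^ e ≤ #S') :
    ∀ᶠ X : ℝ in atTop, ∃ i, J i ∧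
      cc / (C * 2 ^ 64) * X / Real.log X ^ e ≤
        (({c : ℕ | (c : ℝ) ≤ X ∧ P i c} : Set ℕ).ncard : ℝ) ∧
      cc / (C * 2 ^ 64) * X / Real.log X ^ e ≤
        (({c : ℕ | (c : ℝ) ≤ X ∧ P' i c} : Set ℕ).ncard : ℝ) := by
  have hC' : (0 : ℝ) < C := by exact_mod_cast hC
  have hfl : Tendsto (fun X : ℝ => ⌊(X / C) ^ ((1 : ℝ) / 64)⌋₊) atTop atTop := by
    apply tendsto_nat_floor_atTop.comp
    apply (tendsto_rpow_atTop (by norm_num : (0 : ℝ) < 1 / 64)).comp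
    exact tendsto_id.atTop_div_const hC'
  filter_upwards [hfl.eventually h, hfl.eventually_ge_atTop 3, eventually_gt_atTop 0]
    with X hX hn hX0
  obtain ⟨i, hi, S, S', hS, hS', hcard, hcard'⟩ := hX
  set n := ⌊(X / C) ^ ((1 : ℝ) / 64)⌋₊ with hndef
  have hn' : (3 : ℝ) ≤ n := by exact_mod_cast hn
  have hn0 : (0 : ℝ) < n := by linarith
  have hXC : 0 < X / C := by positivity
  have hroot : ((X / C) ^ ((1 : ℝ) / 64)) ^ 64 = X / C := by
    rw [← Real.rpow_natCast, ← Real.rpow_mul hXC.le]; norm_num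
  have h1 : (C : ℝ) * (n : ℝ) ^ 64 ≤ X := by
    have h2 : (n : ℝ) ≤ (X / C) ^ ((1 : ℝ) / 64) := Nat.floor_le (by positivity)
    have h3 : (n : ℝ) ^ 64 ≤ X / C := by
      rw [← hroot]; gcongr
    rw [le_div_iff₀ hC'] at h3
    linarith
  have h2 : X ≤ C * 2 ^ 64 * (n : ℝ) ^ 64 := by
    have h3 : (X / C) ^ ((1 : ℝ) / 64) ≤ 2 * n := by
      have := Nat.lt_floor_add_one ((X / C) ^ ((1 : ℝ) / 64))
      rw [← hndef] at this
      linarith
    have h4 : X / C ≤ (2 * n) ^ 64 := by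
      rw [← hroot]; gcongr
    rw [div_le_iff₀ hC', mul_pow] at h4
    linarith
  have hlogn : 0 < Real.log n := Real.log_pos (by linarith)
  have hlog : Real.log n ≤ Real.log X := by
    apply Real.log_le_log hn0
    have h3 : (n : ℝ) ≤ (n : ℝ) ^ 64 := le_self_pow₀ (by linarith) (by norm_num)
    have h4 : (1 : ℝ) ≤ C := by exact_mod_cast hC
    have h5 : (0 : ℝ) < (n : ℝ) ^ 64 := by positivity
    nlinarith
  have key : ∀ (Q : ℕ → Prop) (T : Finset ℕ), (∀ c ∈ T, c ≤ C * n ^ 64 ∧ Q c) →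
      (#T : ℝ) ≤ (({c : ℕ | (c : ℝ) ≤ X ∧ Q c} : Set ℕ).ncard : ℝ) := by
    intro Q T hT
    have hfin : ({c : ℕ | (c : ℝ) ≤ X ∧ Q c} : Set ℕ).Finite := by
      apply (Set.finite_Iic ⌊X⌋₊).subset
      rintro c ⟨hc, _⟩
      exact Nat.le_floor hc
    have hSsub : (T : Set ℕ) ⊆ {c : ℕ | (c : ℝ) ≤ X ∧ Q c} := by
      intro c hc
      have h3 := hT c hc
      refine ⟨?_, h3.2⟩
      have h4 : (c : ℝ) ≤ ((C * n ^ 64 : ℕ) : ℝ) := by exact_mod_cast h3.1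
      push_cast at h4
      linarith
    have := Set.ncard_le_ncard hSsub hfin
    rw [Set.ncard_coe_finset] at this
    exact_mod_cast this
  have fin : cc / (C * 2 ^ 64) * X / Real.log X ^ e ≤ cc * n ^ 64 / Real.log n ^ e := by
    calc cc / (C * 2 ^ 64) * X / Real.log X ^ e
        ≤ cc / (C * 2 ^ 64) * (C * 2 ^ 64 * (n : ℝ) ^ 64) / Real.log n ^ e := by
          gcongr
      _ = _ := by field_simp
  exact ⟨i, hi, (fin.trans hcard).trans (key (P i) S hS),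
    (fin.trans hcard').trans (key (P' i) S' hS')⟩

/-- Enough primes at the scale `n`. -/
theorem primes_enough (cc : ℝ) (A : ℕ) : ∀ᶠ n : ℕ in atTop,
    cc * n ^ 64 / Real.log n ^ 3 / 4 + (4 * A + 3) ≤ (Nat.primeCounting (128 * n ^ 64) : ℝ) := by
  have t1 : Tendsto (fun n : ℕ => Real.log n) atTop atTop :=
    Real.tendsto_log_atTop.comp tendsto_natCast_atTop_atTop
  filter_upwards [t1.eventually_ge_atTop (|cc| + 1), eventually_ge_atTop (8 * A + 8)]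
    with n hn1 hn2
  have hn3 : (8 : ℝ) * A + 8 ≤ n := by exact_mod_cast hn2
  have hA0 : (0 : ℝ) ≤ A := Nat.cast_nonneg A
  have hn0 : (8 : ℝ) ≤ n := by linarith
  have hL1 : 1 ≤ Real.log n := by
    have := abs_nonneg cc
    linarith
  have hLn : Real.log n ≤ n := (Real.log_le_sub_one_of_pos (by linarith)).trans (by linarith)
  set L := Real.log n with hL
  have hL0 : 0 < L := by linarith
  have hp : (0 : ℝ) < (n : ℝ) ^ 64 := by positivity
  have hn2' : (n : ℝ) * n ≤ (n : ℝ) ^ 64 := by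
    calc (n : ℝ) * n = (n : ℝ) ^ 2 := by ring
      _ ≤ (n : ℝ) ^ 64 := pow_le_pow_right₀ (by linarith) (by norm_num)
  -- first term
  have f1 : cc * n ^ 64 / L ^ 3 / 4 ≤ (n : ℝ) ^ 64 / L / 4 := by
    have h1 : cc ≤ L ^ 2 := by
      have h2 := le_abs_self cc
      nlinarith
    have h2 : cc * n ^ 64 / L ^ 3 ≤ (n : ℝ) ^ 64 / L := by
      rw [div_le_div_iff₀ (by positivity) hL0]
      calc cc * (n : ℝ) ^ 64 * L ≤ L ^ 2 * (n : ℝ) ^ 64 * L := by gcongr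
        _ = (n : ℝ) ^ 64 * L ^ 3 := by ring
    linarith
  -- second term
  have f2 : (4 * (A : ℝ) + 3) ≤ (n : ℝ) ^ 64 / L / 2 := by
    rw [le_div_iff₀ (by norm_num), le_div_iff₀ hL0]
    calc (4 * (A : ℝ) + 3) * 2 * L ≤ n * n := by
          apply mul_le_mul (by linarith) hLn hL0.le (by linarith)
      _ ≤ _ := hn2'
  -- Chebyshev
  have f3 : (n : ℝ) ^ 64 / L ≤ (Nat.primeCounting (128 * n ^ 64) : ℝ) := by
    have h1 := Chebyshev.pi_ge (128 * n ^ 64)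
    refine le_trans ?_ h1
    push_cast
    have h128 : Real.log 128 ≤ 5 := by
      have h2 : Real.log 128 = 7 * Real.log 2 := by
        rw [show (128 : ℝ) = 2 ^ 7 by norm_num, Real.log_pow]; norm_num
      have := Real.log_two_lt_d9
      rw [h2]; linarith
    have hm : Real.log (128 * (n : ℝ) ^ 64) = Real.log 128 + 64 * L := by
      rw [Real.log_mul (by norm_num) (by positivity), Real.log_pow, ← hL]; norm_num
    have hm1 : Real.log (128 * (n : ℝ) ^ 64) ≤ 69 * L := by rw [hm]; linarith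
    have hm0 : 0 < Real.log (128 * (n : ℝ) ^ 64) := by
      rw [hm]
      have : 0 < Real.log 128 := Real.log_pos (by norm_num)
      linarith
    have hm2 : Real.log (128 * (n : ℝ) ^ 64 + 1) ≤ 70 * L := by
      have h2 : (128 * (n : ℝ) ^ 64 + 1) ≤ 129 * (n : ℝ) ^ 64 := by
        have : (1 : ℝ) ≤ (n : ℝ) ^ 64 := one_le_pow₀ (by linarith)
        linarith
      have h3 : Real.log 129 ≤ 6 := by
        have h4 : Real.log 129 ≤ Real.log 256 := Real.log_le_log (by norm_num) (by norm_num)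
        have h5 : Real.log 256 = 8 * Real.log 2 := by
          rw [show (256 : ℝ) = 2 ^ 8 by norm_num, Real.log_pow]; norm_num
        have := Real.log_two_lt_d9
        linarith
      calc Real.log (128 * (n : ℝ) ^ 64 + 1) ≤ Real.log (129 * (n : ℝ) ^ 64) :=
            Real.log_le_log (by positivity) h2
        _ = Real.log 129 + 64 * L := by
            rw [Real.log_mul (by norm_num) (by positivity), Real.log_pow, ← hL]; norm_num
        _ ≤ 70 * L := by linarith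
    rw [div_le_div_iff₀ hL0 hm0]
    have hlog2 := Real.log_two_gt_d9
    have h70 : 70 * L ≤ 10 * (n : ℝ) ^ 64 := by
      have h8 : (8 : ℝ) * n ≤ n * n := by gcongr
      nlinarith
    have hnum : 70 * (n : ℝ) ^ 64 ≤
        128 * (n : ℝ) ^ 64 * Real.log 2 - Real.log (128 * (n : ℝ) ^ 64 + 1) := by
      nlinarith
    calc (n : ℝ) ^ 64 * Real.log (128 * (n : ℝ) ^ 64) ≤ (n : ℝ) ^ 64 * (69 * L) := by gcongr
      _ ≤ 70 * (n : ℝ) ^ 64 * L := by nlinarith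
      _ ≤ _ := by gcongr
  linarith

/-- The main theorem. -/
theorem main : ∃ δ : ℝ, 0 < δ ∧ ∀ a : ℤ, a ≠ 0 → ∀ᶠ X : ℝ in atTop,
    ∃ b : ℤ, (b = a ∨ b = 4 * a ∨ b = 16 * a) ∧
      δ * X / Real.log X ^ 3 ≤
        (({c : ℕ | (c : ℝ) ≤ X ∧ (Adm2 b c ∧ PosF b c)} : Set ℕ).ncard : ℝ) ∧
      δ * X / Real.log X ^ 3 ≤
        (({c : ℕ | (c : ℝ) ≤ X ∧ (Adm2 b c ∧ NegF b c)} : Set ℕ).ncard : ℝ) := by
  obtain ⟨cc, hcc, hpairs⟩ := LSieve.pairs_exist3 3 1 2 Nat.prime_three (by norm_num)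
    (by norm_num) (by norm_num) (by decide)
  refine ⟨cc / 8 / (256 * 2 ^ 64), by positivity, fun a ha => ?_⟩
  have := real_transfer_or (fun b : ℤ => b = a ∨ b = 4 * a ∨ b = 16 * a)
    (fun b c => Adm2 b c ∧ PosF b c) (fun b c => Adm2 b c ∧ NegF b c) 256 3 (by norm_num)
    (cc / 8) (by positivity) (by
      filter_upwards [hpairs, primes_enough cc a.natAbs, eventually_ge_atTop (16 * a.natAbs + 2)]
        with n h1 h2 h3
      obtain ⟨𝒬, hcard, h𝒬⟩ := h1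
      have h𝒬' : IsPairs n 𝒬 := by
        intro x hx
        obtain ⟨g1, g2, g3, g4, g5, -, -, g6⟩ := h𝒬 x hx
        exact ⟨g1, g2, g3, g4, g5, g6⟩
      obtain ⟨b, hb, hp, hq⟩ := scale a ha n h3 𝒬 h𝒬' _ hcard h2
      have e : cc / 8 * (n : ℝ) ^ 64 / Real.log n ^ 3 = cc * n ^ 64 / Real.log n ^ 3 / 8 := by
        ring
      refine ⟨b, hb, SP b (256 * n ^ 64), SN b (256 * n ^ 64), ?_, ?_, ?_, ?_⟩
      · intro c hc
        obtain ⟨g1, g2⟩ := (mem_SP _ _ _).1 hc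
        exact ⟨g1.2, g2⟩
      · intro c hc
        obtain ⟨g1, g2⟩ := (mem_SN _ _ _).1 hc
        exact ⟨g1.2, g2⟩
      · rw [e]; exact hp
      · rw [e]; exact hq)
  filter_upwards [this] with X hX
  obtain ⟨b, hb, h1, h2⟩ := hX
  push_cast at h1 h2
  exact ⟨b, hb, h1, h2⟩

end Kl96
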