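import Pool.Agent.LibKloosterman.Two
import Pool.Agent.LibVinogradov.Pairs3

/-!
# Both signs with two prime factors: the relations and the counting at one scale
-/

set_option autoImplicit false

namespace Kl96

open Finset Filter Topology Kloo

/-- The relation between the pair `b`, `4 b`. -/
theorem prod_rel (b : ℤ) (p t q : ℕ) [NeZero p] [NeZero t] [NeZero q] (hq : q = p + 2 * t)
    (hp : p.Prime) (hq' : q.Prime) (ht : t.Prime) (ht2 : 2 < t) (hp2 : 2 < p) :
    0 < (F b (p * t) 1).re * (F b (t * q) 1).re * (F (4 * b) (q * p) 1).re := by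
  have : NeZero (2 * t) := ⟨by have := ht.pos; omega⟩
  have h2t : Nat.Coprime 2 t := (Nat.coprime_primes Nat.prime_two ht).2 (by omega)
  have h2p : Nat.Coprime 2 p := (Nat.coprime_primes Nat.prime_two hp).2 (by omega)
  have h2q : Nat.Coprime 2 q := (Nat.coprime_primes Nat.prime_two hq').2 (by omega)
  have hpt : p.Coprime t := by
    rw [Nat.coprime_primes hp ht]
    rintro rfl
    have h3 : 3 ∣ q := ⟨p, by omega⟩
    have h4 := (Nat.prime_dvd_prime_iff_eq Nat.prime_three hq').1 h3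
    omega
  have hsq : Squarefree (2 * t) :=
    Nat.squarefree_mul_iff.2 ⟨h2t, Nat.prime_two.prime.squarefree, ht.prime.squarefree⟩
  have key := prod_pos3 (4 * b) p (2 * t) q hq.symm (Nat.Coprime.mul_right h2p.symm hpt)
    hp.prime.squarefree hsq hq'.prime.squarefree
  have : NeZero (2 * (p * t)) := ⟨by have := ht.pos; have := hp.pos; positivity⟩
  have : NeZero (2 * (t * q)) := ⟨by have := ht.pos; have := hq'.pos; positivity⟩
  have e1 : F (4 * b) (p * (2 * t)) 1 = - F b (p * t) 1 := by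
    rw [F_cast (4 * b) 1 (show p * (2 * t) = 2 * (p * t) by ring)]
    exact F_two b (p * t) (Nat.Coprime.mul_right h2p h2t)
  have e2 : F (4 * b) (2 * t * q) 1 = - F b (t * q) 1 := by
    rw [F_cast (4 * b) 1 (show 2 * t * q = 2 * (t * q) by ring)]
    exact F_two b (t * q) (Nat.Coprime.mul_right h2t h2q)
  rw [e1, e2, Complex.neg_re, Complex.neg_re] at key
  linarith

/-- `S(b,1;c) > 0`. -/
def PosF (b : ℤ) (c : ℕ) : Prop := ∃ _ : NeZero c, 0 < (F b c 1).re

/-- `S(b,1;c) < 0`. -/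
def NegF (b : ℤ) (c : ℕ) : Prop := ∃ _ : NeZero c, (F b c 1).re < 0

theorem pos_or_neg (b : ℤ) (c : ℕ) (hc : Squarefree c) : PosF b c ∨ NegF b c := by
  have : NeZero c := ⟨hc.ne_zero⟩
  rcases lt_or_gt_of_ne (F_re_ne_zero b c 1 hc) with h | h
  · exact Or.inr ⟨inferInstance, h⟩
  · exact Or.inl ⟨inferInstance, h⟩

/-- The moduli: squarefree, at most two prime factors, `gcd(b,c)` divides 2, odd prime factors
of size at least `√c / 8`. -/
def Adm2 (b : ℤ) (c : ℕ) : Prop := Squarefree c ∧ #c.primeFactors ≤ 2 ∧ Int.gcd b c ∣ 2 ∧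
  ∀ r : ℕ, r.Prime → r ∣ c → r = 2 ∨ c ≤ 64 * r ^ 2

theorem adm2_mul (b : ℤ) (u v : ℕ) (hu : u.Prime) (hv : v.Prime) (huv : u ≠ v)
    (hub : ¬ (u : ℤ) ∣ b) (hvb : ¬ (v : ℤ) ∣ b) (h1 : u * v ≤ 64 * u ^ 2)
    (h2 : u * v ≤ 64 * v ^ 2) : Adm2 b (u * v) := by
  have hc : u.Coprime v := (Nat.coprime_primes hu hv).2 huv
  refine ⟨Nat.squarefree_mul_iff.2 ⟨hc, hu.prime.squarefree, hv.prime.squarefree⟩, ?_, ?_, ?_⟩
  · rw [hc.primeFactors_mul, Nat.Prime.primeFactors hu, Nat.Prime.primeFactors hv]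
    exact (card_union_le _ _).trans (by simp)
  · have h1 : Nat.Coprime b.natAbs (u * v) := by
      refine Nat.Coprime.mul_right ?_ ?_
      · exact ((hu.coprime_iff_not_dvd).2 fun h => hub (Int.natCast_dvd.2 h)).symm
      · exact ((hv.coprime_iff_not_dvd).2 fun h => hvb (Int.natCast_dvd.2 h)).symm
    have h2 : Int.gcd b ((u * v : ℕ) : ℤ) = 1 := by
      rw [Int.gcd, Int.natAbs_natCast]
      exact h1
    rw [h2]
    exact one_dvd _
  · intro r hr hrd
    right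
    rcases hr.dvd_mul.1 hrd with h | h
    · rwa [(Nat.prime_dvd_prime_iff_eq hr hu).1 h]
    · rwa [(Nat.prime_dvd_prime_iff_eq hr hv).1 h]

theorem adm2_two (b : ℤ) (p : ℕ) (hp : p.Prime) (hp2 : 2 < p) (hpb : ¬ (p : ℤ) ∣ b) :
    Adm2 b (2 * p) := by
  have hc : Nat.Coprime 2 p := (Nat.coprime_primes Nat.prime_two hp).2 (by omega)
  refine ⟨Nat.squarefree_mul_iff.2 ⟨hc, Nat.prime_two.prime.squarefree, hp.prime.squarefree⟩,
    ?_, ?_, ?_⟩
  · rw [hc.primeFactors_mul, Nat.Prime.primeFactors Nat.prime_two, Nat.Prime.primeFactors hp]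
    exact (card_union_le _ _).trans (by simp)
  · have h1 : Nat.Coprime b.natAbs p :=
      ((hp.coprime_iff_not_dvd).2 fun h => hpb (Int.natCast_dvd.2 h)).symm
    have h2 : Int.gcd b ((2 * p : ℕ) : ℤ) = Nat.gcd b.natAbs (2 * p) := by
      rw [Int.gcd, Int.natAbs_natCast]
    rw [h2]
    exact ((h1.coprime_dvd_left (Nat.gcd_dvd_left _ _)).dvd_of_dvd_mul_right
      (Nat.gcd_dvd_right _ _))
  · intro r hr hrd
    rcases hr.dvd_mul.1 hrd with h | h
    · exact Or.inl ((Nat.prime_dvd_prime_iff_eq hr Nat.prime_two).1 h)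
    · right
      rw [(Nat.prime_dvd_prime_iff_eq hr hp).1 h]
      nlinarith

theorem adm2_prime (b : ℤ) (p : ℕ) (hp : p.Prime) (hpb : ¬ (p : ℤ) ∣ b) : Adm2 b p := by
  refine ⟨hp.prime.squarefree, ?_, ?_, ?_⟩
  · rw [Nat.Prime.primeFactors hp]; simp
  · have h1 : Nat.Coprime b.natAbs p :=
      ((hp.coprime_iff_not_dvd).2 fun h => hpb (Int.natCast_dvd.2 h)).symm
    have h2 : Int.gcd b (p : ℤ) = 1 := by
      rw [Int.gcd, Int.natAbs_natCast]
      exact h1
    rw [h2]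
    exact one_dvd _
  · intro r hr hrd
    right
    rw [(Nat.prime_dvd_prime_iff_eq hr hp).1 hrd]
    have := hp.pos
    nlinarith

open Classical in
/-- Admissible moduli up to `M` with positive sum. -/
noncomputable def SP (b : ℤ) (M : ℕ) : Finset ℕ := (Icc 1 M).filter fun c => Adm2 b c ∧ PosF b c

open Classical in
/-- Admissible moduli up to `M` with negative sum. -/
noncomputable def SN (b : ℤ) (M : ℕ) : Finset ℕ := (Icc 1 M).filter fun c => Adm2 b c ∧ NegF b c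

theorem mem_SP (b : ℤ) (M c : ℕ) : c ∈ SP b M ↔ (1 ≤ c ∧ c ≤ M) ∧ Adm2 b c ∧ PosF b c := by
  classical
  unfold SP
  rw [mem_filter, mem_Icc]

theorem mem_SN (b : ℤ) (M c : ℕ) : c ∈ SN b M ↔ (1 ≤ c ∧ c ≤ M) ∧ Adm2 b c ∧ NegF b c := by
  classical
  unfold SN
  rw [mem_filter, mem_Icc]

/-- The properties of the pairs of primes. -/
def IsPairs (n : ℕ) (𝒬 : Finset (ℕ × ℕ)) : Prop :=
  ∀ x ∈ 𝒬, x.1.Prime ∧ x.2.Prime ∧ 4 * n ^ 32 < x.1 ∧ x.1 < x.2 ∧ x.2 ≤ 16 * n ^ 32 ∧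
    ∃ t : ℕ, t.Prime ∧ 2 * n ^ 32 < t ∧ x.2 = x.1 + 2 * t

/-- The alternative for one pair. -/
theorem alt (b : ℤ) (hb : b ≠ 0) (n : ℕ) (hn : 4 * b.natAbs + 2 ≤ n) (𝒬 : Finset (ℕ × ℕ))
    (h𝒬 : IsPairs n 𝒬) (x : ℕ × ℕ) (hx : x ∈ 𝒬) :
    x.1.Prime ∧ x.2.Prime ∧ ∃ t : ℕ, x.2 = x.1 + 2 * t ∧
      (x.2 * x.1 ∈ SP (4 * b) (256 * n ^ 64) ∨
        ((x.1 * t ∈ SP b (256 * n ^ 64) ∨ t * x.2 ∈ SP b (256 * n ^ 64)) ∧
          (x.1 * t ∈ SN b (256 * n ^ 64) ∨ t * x.2 ∈ SN b (256 * n ^ 64)))) := by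
  obtain ⟨hp, hq, hpn, hpq, hqn, t, ht, htn, hqe⟩ := h𝒬 x hx
  refine ⟨hp, hq, t, hqe, ?_⟩
  have hn1 : n ≤ n ^ 32 := Nat.le_self_pow (by norm_num) n
  have : NeZero x.1 := ⟨hp.ne_zero⟩
  have : NeZero x.2 := ⟨hq.ne_zero⟩
  have : NeZero t := ⟨ht.ne_zero⟩
  have key := prod_rel b x.1 t x.2 hqe hp hq ht (by omega) (by omega)
  have hsize : ∀ u v : ℕ, u ≤ 16 * n ^ 32 → v ≤ 16 * n ^ 32 → u * v ≤ 256 * n ^ 64 := by
    intro u v hu hv
    calc u * v ≤ (16 * n ^ 32) * (16 * n ^ 32) := Nat.mul_le_mul hu hv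
      _ = _ := by ring
  have hnd : ∀ (e : ℤ) (u : ℕ), e ≠ 0 → e.natAbs < u → ¬ (u : ℤ) ∣ e := by
    intro e u he hu h
    have h1 : u ∣ e.natAbs := Int.natCast_dvd.1 h
    have := Nat.le_of_dvd (Int.natAbs_pos.2 he) h1
    omega
  have h4 : (4 * b).natAbs = 4 * b.natAbs := by rw [Int.natAbs_mul]; rfl
  have h4b : (4 * b : ℤ) ≠ 0 := by omega
  have hxt : x.1 ≠ t := by
    rintro rfl
    have h3 : 3 ∣ x.2 := ⟨x.1, by omega⟩
    have h4 := (Nat.prime_dvd_prime_iff_eq Nat.prime_three hq).1 h3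
    omega
  have hbig : ∀ u v : ℕ, u ≤ 16 * n ^ 32 → v ≤ 16 * n ^ 32 → ∀ r : ℕ, 2 * n ^ 32 < r →
      u * v ≤ 64 * r ^ 2 := by
    intro u v hu hv r hr
    calc u * v ≤ 256 * n ^ 64 := hsize u v hu hv
      _ = 64 * (2 * n ^ 32) ^ 2 := by ring
      _ ≤ 64 * r ^ 2 := by gcongr
  have a1 : Adm2 b (x.1 * t) :=
    adm2_mul b _ _ hp ht hxt (hnd b _ hb (by omega)) (hnd b _ hb (by omega))
      (hbig _ _ (by omega) (by omega) _ (by omega)) (hbig _ _ (by omega) (by omega) _ (by omega))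
  have a2 : Adm2 b (t * x.2) :=
    adm2_mul b _ _ ht hq (by omega) (hnd b _ hb (by omega)) (hnd b _ hb (by omega))
      (hbig _ _ (by omega) (by omega) _ (by omega)) (hbig _ _ (by omega) (by omega) _ (by omega))
  have a3 : Adm2 (4 * b) (x.2 * x.1) :=
    adm2_mul _ _ _ hq hp (by omega) (hnd _ _ h4b (by omega)) (hnd _ _ h4b (by omega))
      (hbig _ _ (by omega) (by omega) _ (by omega)) (hbig _ _ (by omega) (by omega) _ (by omega))
  have hx1 := hp.pos
  have hx2 := hq.pos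
  have ht1 := ht.pos
  have s1 := hsize x.1 t (by omega) (by omega)
  have s2 := hsize t x.2 (by omega) (by omega)
  have s3 := hsize x.2 x.1 (by omega) (by omega)
  have p1 : 1 ≤ x.1 * t := Nat.mul_pos hx1 ht1
  have p2 : 1 ≤ t * x.2 := Nat.mul_pos ht1 hx2
  have p3 : 1 ≤ x.2 * x.1 := Nat.mul_pos hx2 hx1
  rw [mem_SP, mem_SP, mem_SP, mem_SN, mem_SN]
  rcases lt_trichotomy (F (4 * b) (x.2 * x.1) 1).re 0 with h | h | h
  · right
    rcases lt_trichotomy (F b (x.1 * t) 1).re 0 with h1 | h1 | h1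
    · rcases lt_trichotomy (F b (t * x.2) 1).re 0 with h2 | h2 | h2
      · exfalso
        have := mul_pos_of_neg_of_neg h1 h2
        nlinarith
      · rw [h2] at key; simp at key
      · exact ⟨Or.inr ⟨⟨p2, s2⟩, a2, inferInstance, h2⟩,
          Or.inl ⟨⟨p1, s1⟩, a1, inferInstance, h1⟩⟩
    · rw [h1] at key; simp at key
    · rcases lt_trichotomy (F b (t * x.2) 1).re 0 with h2 | h2 | h2
      · exact ⟨Or.inl ⟨⟨p1, s1⟩, a1, inferInstance, h1⟩,
          Or.inr ⟨⟨p2, s2⟩, a2, inferInstance, h2⟩⟩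
      · rw [h2] at key; simp at key
      · exfalso
        have := mul_pos h1 h2
        nlinarith
  · rw [h] at key; simp at key
  · left
    exact ⟨⟨p3, s3⟩, a3, inferInstance, h⟩

/-- The two inequalities. -/
theorem card_le (b : ℤ) (hb : b ≠ 0) (n : ℕ) (hn : 4 * b.natAbs + 2 ≤ n)
    (𝒬 : Finset (ℕ × ℕ)) (h𝒬 : IsPairs n 𝒬) :
    #𝒬 ≤ 4 * (#(SP b (256 * n ^ 64)) + #(SP (4 * b) (256 * n ^ 64))) ∧
      #𝒬 ≤ 4 * (#(SN b (256 * n ^ 64)) + #(SP (4 * b) (256 * n ^ 64))) := by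
  constructor
  · refine count_transfer2 𝒬 (SP b (256 * n ^ 64)) (SP (4 * b) (256 * n ^ 64)) 1 2 one_pos
      (fun c hc => ((mem_SP _ _ _).1 hc).2.1.2.1) (fun c hc => by
        have := ((mem_SP _ _ _).1 hc).1.1; omega)
      (fun c hc => ((mem_SP _ _ _).1 hc).2.1.2.1) (fun c hc => by
        have := ((mem_SP _ _ _).1 hc).1.1; omega) ?_
    intro x hx
    obtain ⟨h1, h2, t, h3, h4⟩ := alt b hb n hn 𝒬 h𝒬 x hx
    refine ⟨h1, h2, t, h3, ?_⟩
    rw [one_mul, one_mul, one_mul]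
    rcases h4 with h4 | ⟨h4, -⟩
    · exact Or.inr (Or.inr h4)
    · rcases h4 with h4 | h4
      · exact Or.inl h4
      · exact Or.inr (Or.inl h4)
  · refine count_transfer2 𝒬 (SN b (256 * n ^ 64)) (SP (4 * b) (256 * n ^ 64)) 1 2 one_pos
      (fun c hc => ((mem_SN _ _ _).1 hc).2.1.2.1) (fun c hc => by
        have := ((mem_SN _ _ _).1 hc).1.1; omega)
      (fun c hc => ((mem_SP _ _ _).1 hc).2.1.2.1) (fun c hc => by
        have := ((mem_SP _ _ _).1 hc).1.1; omega) ?_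
    intro x hx
    obtain ⟨h1, h2, t, h3, h4⟩ := alt b hb n hn 𝒬 h𝒬 x hx
    refine ⟨h1, h2, t, h3, ?_⟩
    rw [one_mul, one_mul, one_mul]
    rcases h4 with h4 | ⟨-, h4⟩
    · exact Or.inr (Or.inr h4)
    · rcases h4 with h4 | h4
      · exact Or.inl h4
      · exact Or.inr (Or.inl h4)

/-- Primes: `S(4e,1;2p) = -S(e,1;p)`. -/
theorem card_primes_le (e : ℤ) (he : e ≠ 0) (M : ℕ) :
    Nat.primeCounting M ≤ #(SN (4 * e) (2 * M)) + #(SN e (2 * M)) + (e.natAbs + 3) := by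
  classical
  set A : Finset ℕ := (range (M + 1)).filter Nat.Prime with hA
  have hAc : #A = Nat.primeCounting M := by
    rw [hA, Nat.primeCounting, Nat.primeCounting', Nat.count_eq_card_filter_range]
  set B : Finset ℕ := A.filter fun p => e.natAbs + 2 < p with hB
  have h1 : #A ≤ #B + (e.natAbs + 3) := by
    have h2 : A ⊆ B ∪ range (e.natAbs + 3) := by
      intro p hp
      rw [mem_union, hB, mem_filter, mem_range]
      by_cases h : e.natAbs + 2 < p
      · exact Or.inl ⟨hp, h⟩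
      · exact Or.inr (by omega)
    calc #A ≤ _ := card_le_card h2
      _ ≤ _ := card_union_le _ _
      _ = _ := by rw [card_range]
  have h2 : #B ≤ #(SN (4 * e) (2 * M)) + #(SN e (2 * M)) := by
    have h3 : B.image (fun p => if PosF e p then 2 * p else p) ⊆
        SN (4 * e) (2 * M) ∪ SN e (2 * M) := by
      intro c hc
      rw [mem_image] at hc
      obtain ⟨p, hp, rfl⟩ := hc
      rw [hB, mem_filter, hA, mem_filter, mem_range] at hp
      obtain ⟨⟨hpM, hpp⟩, hpe⟩ := hp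
      have hnd : ¬ (p : ℤ) ∣ e := by
        intro h
        have h1 : p ∣ e.natAbs := Int.natCast_dvd.1 h
        have := Nat.le_of_dvd (Int.natAbs_pos.2 he) h1
        omega
      have h2p : Nat.Coprime 2 p := (Nat.coprime_primes Nat.prime_two hpp).2 (by omega)
      have hnd4 : ¬ (p : ℤ) ∣ 4 * e := by
        intro h
        have hpi : Prime (p : ℤ) := Nat.prime_iff_prime_int.1 hpp
        rcases hpi.dvd_or_dvd h with h | h
        · have h1 : p ∣ 4 := by exact_mod_cast h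
          have h2 : p ∣ 2 * 2 := h1
          rcases hpp.dvd_mul.1 h2 with h3 | h3 <;>
          · have := Nat.le_of_dvd (by norm_num) h3
            omega
        · exact hnd h
      rw [mem_union, mem_SN, mem_SN]
      have hp1 := hpp.pos
      by_cases h : PosF e p
      · rw [if_pos h]
        left
        refine ⟨⟨by omega, by omega⟩, adm2_two _ p hpp (by omega) hnd4, ?_⟩
        obtain ⟨i1, h5⟩ := h
        have i2 : NeZero (2 * p) := ⟨by omega⟩
        refine ⟨i2, ?_⟩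
        have h6 := F_two e p h2p
        have h7 : (F (4 * e) (2 * p) 1).re = -(F e p 1).re := by
          rw [← Complex.neg_re, ← h6]
        rw [h7]
        linarith
      · rw [if_neg h]
        right
        exact ⟨⟨by omega, by omega⟩, adm2_prime e p hpp hnd,
          (pos_or_neg e p hpp.prime.squarefree).resolve_left h⟩
    have h4 : #(B.image (fun p => if PosF e p then 2 * p else p)) = #B := by
      refine card_image_of_injOn ?_
      intro p hp q hq hpq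
      have hp' := mem_coe.1 hp
      have hq' := mem_coe.1 hq
      rw [hB, mem_filter, hA, mem_filter, mem_range] at hp' hq'
      have hpo := hp'.1.2.eq_two_or_odd
      have hqo := hq'.1.2.eq_two_or_odd
      simp only at hpq
      split_ifs at hpq <;> omega
    rw [← h4]
    exact (card_le_card h3).trans (card_union_le _ _)
  omega

end Kl96
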